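import Pool.Agent.Q181.FJB.Main

/-!
# Extensions whose kernel is the braid group on an infinite circularly ordered set

Let `L` be a linearly ordered set, viewed as a set of points on the boundary circle of a disk. `Br L`
is the group of the braids on the points of `L` which move only finitely many points. It is given
by the presentation of Birman, Ko and Lee: the generator `a x y` is the half twist along the chord
between `x` and `y`, chords which are disjoint and do not cross commute, and
`a z y * a y x = a y x * a x z` if `x, y, z` are in the circular order (`Cyc x y z`). So
`Br (Fin n)` is Artin's braid group on `n` strands and `Br ℕ` is the infinite braid group. The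
presentation depends only on the circular order of `L`, so every group which acts on `L`
preserving the circular order acts on `Br L`.

`ClosedE C` lists closure properties of the class of the groups which satisfy the
K-theoretic Farrell–Jones conjecture with additive category coefficients and finite wreath products,
and this class contains the braid groups (Bartels and Bestvina).

The proof: for an infinite `L`, every injective map between finite subsets of `L` which
preserves the circular order is induced by conjugation with a braid (the points are moved one after
the other through free arcs). Hence the group acts on every finite subset of `Br L` like an inner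
automorphism, and the criterion `Q30.FJ.inn` applies.
-/

set_option autoImplicit false

namespace Pool.Agent.Results.MP_e40716_gt.BraidedWreath

open Q181.FJB (Br Cyc a)
open Pool.Agent.Y110.FJ (ClosedE)

/-- Let `C` be a class of groups with the closure properties `ClosedE C` which contains Artin's
braid groups, and let `L` be an infinite linearly ordered set.

(1) Let `N` be a normal subgroup of a group `G` which is isomorphic to `Br L`, and suppose that
`G ⧸ N` is in `C`. Suppose that `N` and a set `S` generate a subgroup of finite index in `G`, and
that for every `g ∈ S` and every finite subset `F` of `L` there are `n ∈ N` and a map `φ : L → L`,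
preserving the circular order of the points of `F`, such that the conjugation by `n * g` maps
`a x y` to `a (φ x) (φ y)` for all `x, y ∈ F`. Then `G` is in `C`.

(2) If a group `Q` in `C` acts on `L` and preserves the circular order then `Q` acts on `Br L` by
`a x y ↦ a (q x) (q y)`, and the semidirect product of `Br L` and `Q` is in `C`. -/
theorem result (C : ∀ (G : Type) [Group G], Prop) (hC : ClosedE C)
    (hB : ∀ n : ℕ, C (Br (Fin n))) (L : Type) [LinearOrder L] [Infinite L] :
    (∀ (G : Type) [Group G] (N : Subgroup G) [N.Normal] (e : Br L ≃* N), C (G ⧸ N) →
      ∀ S : Set G, (Subgroup.closure S ⊔ N).FiniteIndex →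
      (∀ g ∈ S, ∀ F : Finset L, ∃ (n : N) (φ : L → L),
        (∀ x ∈ F, ∀ y ∈ F, ∀ z ∈ F, Cyc x y z → Cyc (φ x) (φ y) (φ z)) ∧
        ∀ x ∈ F, ∀ y ∈ F,
          (n * g : G) * (e (a x y) : G) * (n * g : G)⁻¹ = (e (a (φ x) (φ y)) : G)) → C G) ∧
    (∀ (Q : Type) [Group Q] [MulAction Q L], C Q →
      (∀ (q : Q) (x y z : L), Cyc x y z → Cyc (q • x) (q • y) (q • z)) →
      ∃ α : Q →* MulAut (Br L), (∀ q x y, α q (a x y) = a (q • x) (q • y)) ∧
        C (Br L ⋊[α] Q)) := by
  refine ⟨?_, ?_⟩
  · intro G _ N _ e hQ S hS h
    exact Q181.FJB.main_ext hC hB G N e hQ S hS h
  · intro Q _ _ hQ hq
    exact ⟨Q181.FJB.act hq, Q181.FJB.act_a hq, Q181.FJB.main_sd hC hB Q hQ hq⟩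

end Pool.Agent.Results.MP_e40716_gt.BraidedWreath
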