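import Pool.Agent.Q182.CenMain

/-!
# Groups acting on trees with central edge stabilizers

`C` is any class of groups which contains the metabelian groups and has the closure properties
`ClosedA C`: the usual closure properties `ClosedE C` and closure under acylindrical actions on
trees. All of this is known for the class of the groups which satisfy the K-theoretic Farrell–Jones
conjecture with additive category coefficients and finite wreath products (solvable groups: Wegner,
acylindrical actions: Knopf).

The theorem below says that the fundamental group of a graph of groups is in `C` if the vertex
groups are in `C` and each edge group is central in the vertex groups at its ends. The graph is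
arbitrary, and there are no finiteness conditions, conditions on the vertex groups, or residual
conditions. If the vertex groups are abelian then this is the theorem of Gandini, Meinert and
Rüping. In the simplest new case `G` is an HNN extension of a group `M` in `C` with an isomorphism
between two subgroups of the center of `M`.

Outline of the proof. Let `N` be the subgroup generated by the edge stabilizers. The quotient of the
tree by `N` is a tree, on which `G ⧸ N` acts with trivial edge stabilizers. The intersections of `N`
with the vertex stabilizers are central in them. Let `Γ` be a subgroup which contains `N` and is
generated by elements with fixed points. Then every character of `N ∩ G_x` extends to a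
`Γ`-invariant character of `N`, so `[N, Γ]` meets the vertex stabilizers trivially. For
`Γ = G_x N` the quotient by `[N, Γ]` is generated by a copy of `G_x` and a central subgroup, so it
is in `C`, and then so is `Γ`, since the action of the kernel is free. The preimages of the cyclic
subgroups of `G ⧸ N` are handled in the same way with `[N, N]`.
-/

set_option autoImplicit false

namespace Pool.Agent.Results.MP_e40716_gt.CentralEdges

open Q182.Cyl (ClosedA)

/-- Let `C` be a class of groups with the closure properties `ClosedA C` which contains all
metabelian groups. Let `G` be a group acting without inversions on a tree so that all vertex
stabilizers are in `C` and the stabilizer of every edge is central in the stabilizers of its two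
vertices. Then `G` is in `C`. -/
theorem result (C : ∀ (G : Type) [Group G], Prop) (hC : ClosedA C)
    (hmet : ∀ (G : Type) [Group G], derivedSeries G 2 = ⊥ → C G)
    (G V : Type) [Group G] [MulAction G V] (T : SimpleGraph V) (hT : T.IsTree)
    (hadj : ∀ (g : G) (v w : V), T.Adj v w → T.Adj (g • v) (g • w))
    (hinv : ∀ (g : G) (v w : V), T.Adj v w → ¬ (g • v = w ∧ g • w = v))
    (hst : ∀ v : V, C (MulAction.stabilizer G v))
    (hcen : ∀ (v w : V) (s g : G), T.Adj v w → s • v = v → s • w = w → g • v = v →
      g * s = s * g) : C G :=
  Q182.Cen.main hC hmet ⟨hT, hadj, hinv⟩ (fun v w h s hv hw g hg => hcen v w s g h hv hw hg) hst

end Pool.Agent.Results.MP_e40716_gt.CentralEdges
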