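import Pool.Agent.Q171.OF.Stm

/-!
# Outer automorphism groups of free products of three groups

`ClosedE C` lists closure properties of the class of the groups which satisfy the K-theoretic
Farrell–Jones conjecture with additive category coefficients and finite wreath products.

`factor G i` is the factor `G i` of the free product `FreeP G`. `ToConj φ P Q` says that the
automorphism `φ` maps `P` onto a conjugate of `Q`. `SymP G` is the group of the automorphisms of the
free product which permute the conjugacy classes of the factors, `OutSym G` is its quotient by the
group of the inner automorphisms, and `Holo A` is the holomorph `A ⋊ Aut A`. If the three groups are
freely indecomposable and not infinite cyclic, `OutSym G` is the whole outer automorphism group of the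
free product.

Outline of the proof. The outer automorphisms which preserve the class of each factor act on a tree
(for three factors the complex of McCullough and Miller is a tree): its vertices are the cosets of the
group `E` of the factor automorphisms and of the groups `P_i` which are generated by `E` and the
partial conjugations by elements of the factor `i`. To prove that the coset graph is a tree we measure
an automorphism by the three distances between the vertices fixed by the images of the factors in the
Bass–Serre tree of the free product; these triples behave like Markov triples: at most one of the
three distances can be decreased by a partial conjugation, and if none can be decreased then a
ping-pong argument shows that the automorphism is in `E` up to inner automorphisms. Killing one factor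
gives homomorphisms to outer automorphism groups of free products of two groups, which are products of
two automorphism groups of factors, and two of them together are injective on `E`. The theorem on
actions on trees with a homomorphism injective on the edge stabilizers applies; `P_i` is
`Holo (G i)` times the product of the other two automorphism groups.
-/

set_option autoImplicit false

namespace Pool.Agent.Results.MP_e40716_gt.OuterThreeFactors

open Q171.OF (OutSym Holo)
open Pool.Agent.Y110.FJ (ClosedE)

/-- Let `C` be a class of groups with the closure properties `ClosedE C`, and let `G 0`, `G 1`, `G 2`
be nontrivial groups. The group of the outer automorphisms of the free product of `G 0`, `G 1` and
`G 2` which permute the conjugacy classes of the three factors is in `C` if and only if the holomorphs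
of `G 0`, `G 1` and `G 2` are in `C`. -/
theorem result (C : ∀ (G : Type) [Group G], Prop) (hC : ClosedE C) (G : Fin 3 → Type)
    [∀ i, Group (G i)] [∀ i, Nontrivial (G i)] :
    C (OutSym G) ↔ ∀ i, C (Holo (G i)) :=
  Q171.OF.main' hC G

end Pool.Agent.Results.MP_e40716_gt.OuterThreeFactors
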