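import Pool.Agent.Q27.SCT.Cor

/-!
# Groups acting on compact spaces which are scattered outside a closed set

`C` is any class of groups with the closure properties `ClosedE C`, all of which are known for the
class of the groups that satisfy the `K`-theoretic Farrell–Jones conjecture with coefficients and
finite wreath products.

Outline of the proof. Call a normal subgroup `M` of `P` transparent if every subgroup of `P` whose
image in the quotient by `M` is in `C` is itself in `C`. Directed unions of transparent subgroups are
transparent, since cyclic groups are finitely presented. If `E` is a closed invariant set and `E'`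
arises from `E` by removing isolated points, the elements trivial on `E'` are nontrivial at finitely
many points of `E` only, and act on the removed points by monomial permutations with labels in the
isotropy groups. So the subgroups of the elements trivial on the members of a maximal chain of closed
sets are all transparent.
-/

set_option autoImplicit false

namespace Pool.Agent.Results.MP_e40716_gt.ScatteredSpaces

open Pool.Agent.Y110.FJ (ClosedE)
open Topology

/-- Let `C` be a class of groups with the closure properties `ClosedE C`. Let `P` be a group acting by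
homeomorphisms on a compact space `X`, let `F` be a closed `P`-invariant subset such that the
complement of `F` is scattered (every nonempty subset of it has an isolated point), and let `φ` be a
homomorphism from `P` to a group in `C`; if `F` is empty there is no further condition on `φ`, which
can be trivial.

1. (isotropy) Let `K x` be a subgroup of the stabilizer of `x` for every point `x`, such that
`h (K x) h⁻¹ = K (h x)`, such that every `g` is in `K x` for the `x` in an open set, such that only `1`
is in all `K x`, and such that the kernel of `φ` is contained in `K x` for the `x` in `F`. If the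
quotients of the stabilizers of `x` by `K x` are in `C` for all `x` outside `F`, then `P` is in `C`.

2. (germs) If `P` acts faithfully, the elements of the kernel of `φ` are trivial near each point of `F`
and the groups of germs at the points outside `F` are in `C`, then `P` is in `C`.

3. (labels) Let `Γ` be a group in `C` and let `c` be a locally constant cocycle on `P × X` with values
in `Γ` such that `g x = x` if `c g x = 1`, such that only `g = 1` has trivial labels at all points, and
such that the elements in the kernel of `φ` have trivial labels at the points of `F`. Then `P` is in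
`C`. -/
theorem result (C : ∀ (G : Type) [Group G], Prop) (hC : ClosedE C) (P X : Type) [Group P]
    [TopologicalSpace X] [CompactSpace X] [MulAction P X] [ContinuousConstSMul P X]
    (F : Set X) (hF : IsClosed F) (hFi : ∀ (g : P), ∀ x ∈ F, g • x ∈ F)
    (hsc : ∀ A : Set X, A.Nonempty → Disjoint A F → ∃ x ∈ A, ∃ U : Set X, IsOpen U ∧ x ∈ U ∧
      U ∩ A ⊆ {x}) (Q : Type) [Group Q] (φ : P →* Q) (hQ : C Q) :
    (∀ K : X → Subgroup P, (∀ x, K x ≤ MulAction.stabilizer P x) →
      (∀ (x : X) (g h : P), g ∈ K x → h * g * h⁻¹ ∈ K (h • x)) →
      (∀ g : P, IsOpen {x | g ∈ K x}) → (∀ g : P, (∀ x, g ∈ K x) → g = 1) →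
      (∀ g, φ g = 1 → ∀ x ∈ F, g ∈ K x) →
      (∀ x ∉ F, ∃ (Q' : Type) (_ : Group Q') (ψ : MulAction.stabilizer P x →* Q'), C Q' ∧
        ∀ g : MulAction.stabilizer P x, ψ g = 1 ↔ (g : P) ∈ K x) → C P) ∧
    ((∀ g : P, (∀ x : X, g • x = x) → g = 1) →
      (∀ g, φ g = 1 → ∀ x ∈ F, ∀ᶠ y in 𝓝 x, g • y = y) →
      (∀ x ∉ F, ∃ (Q' : Type) (_ : Group Q') (ψ : MulAction.stabilizer P x →* Q'), C Q' ∧
        ∀ g : MulAction.stabilizer P x, ψ g = 1 ↔ ∀ᶠ y in 𝓝 x, (g : P) • y = y) → C P) ∧
    (∀ (Γ : Type) [Group Γ] (c : P → X → Γ), C Γ →
      (∀ g h x, c (g * h) x = c g (h • x) * c h x) → (∀ g, IsLocallyConstant (c g)) →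
      (∀ g x, c g x = 1 → g • x = x) → (∀ g, (∀ x, c g x = 1) → g = 1) →
      (∀ g, φ g = 1 → ∀ x ∈ F, c g x = 1) → C P) := by
  refine ⟨?_, ?_, ?_⟩
  · intro K h1 h2 h3 h4 h5 h6
    exact Q27.SCT.scattered hC P X K ⟨h1, h2, h3⟩ h4 F hF hFi hsc h6 Q φ hQ h5
  · intro h1 h2 h3
    refine Q27.SCT.scattered hC P X (Q27.SCT.Grm P) Q27.SCT.iso_Grm (fun g hg => h1 g fun x => ?_)
      F hF hFi hsc h3 Q φ hQ h2
    exact MulAction.mem_stabilizer_iff.1 (Q27.SCT.iso_Grm.le x (hg x))
  · intro Γ _ c hΓ hc hloc hfix h1 h2
    refine Q27.SCT.scattered hC P X (Q27.SCT.Lab c hc hfix) (Q27.SCT.iso_Lab c hc hfix hloc) h1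
      F hF hFi hsc (fun x _ => ?_) Q φ hQ h2
    refine ⟨Γ, inferInstance, MonoidHom.mk' (fun g => c g x) (fun g h => ?_), hΓ, fun g => Iff.rfl⟩
    have h3 : (h : P) • x = x := MulAction.mem_stabilizer_iff.1 h.2
    have h4 := hc g h x
    rw [h3] at h4
    exact h4

end Pool.Agent.Results.MP_e40716_gt.ScatteredSpaces
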